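import Pool.Agent.W711.HT.Stm

/-! # Project HT: the integral over the near part of the path -/

set_option autoImplicit false
set_option maxHeartbeats 1000000

namespace Pool.Agent.W85.HT

open Filter Finset Topology Metric Pool.Agent.W711.HT
open scoped Real

/-- `e^{iN(w+π)}` -/
noncomputable def uu (N : ℕ) (w : ℂ) : ℂ := Complex.exp (Complex.I * N * (w + π))

/-- `2 sin w / (1 + e^{iN(w+π)})^2` -/
noncomputable def pp (N : ℕ) (w : ℂ) : ℂ := 2 * Complex.sin w / (1 + uu N w) ^ 2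

lemma norm_uu (N : ℕ) (w : ℂ) : ‖uu N w‖ = Real.exp (-(N * w.im)) := by
  unfold uu
  rw [Complex.norm_exp]
  congr 1
  simp [Complex.mul_re, Complex.mul_im]

lemma kr_eq (N : ℕ) (w : ℂ) : kr N w = uu N w * pp N w := by
  unfold kr pp
  obtain ⟨v, hv⟩ : ∃ v : ℂ, v = Complex.exp (N * (w + π) / 2 * Complex.I) := ⟨_, rfl⟩
  have hv0 : v ≠ 0 := by rw [hv]; exact Complex.exp_ne_zero _
  have h1 : uu N w = v ^ 2 := by
    rw [hv, ← Complex.exp_nat_mul]
    unfold uu
    congr 1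
    push_cast
    ring
  have h2 : 4 * Complex.cos (N * (w + π) / 2) ^ 2 = (1 + v ^ 2) ^ 2 / v ^ 2 := by
    have h3 : Complex.exp (-(N * (w + π) / 2) * Complex.I) = v⁻¹ := by
      rw [hv, ← Complex.exp_neg]
      congr 1
      ring
    rw [Complex.cos, h3, ← hv]
    field_simp
    ring
  rw [h1, h2, div_div_eq_mul_div]
  ring

lemma norm_sin_le (w : ℂ) : ‖Complex.sin w‖ ≤ Real.exp |w.im| := by
  rw [Complex.sin]
  have n1 : ‖Complex.exp (-w * Complex.I)‖ = Real.exp w.im := by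
    rw [Complex.norm_exp]
    congr 1
    simp
  have n2 : ‖Complex.exp (w * Complex.I)‖ = Real.exp (-w.im) := by
    rw [Complex.norm_exp]
    congr 1
    simp
  rw [norm_div, norm_mul, Complex.norm_I, mul_one, Complex.norm_ofNat]
  have h1 := norm_sub_le (Complex.exp (-w * Complex.I)) (Complex.exp (w * Complex.I))
  rw [n1, n2] at h1
  have h2 : Real.exp w.im ≤ Real.exp |w.im| := Real.exp_le_exp.2 (le_abs_self _)
  have h3 : Real.exp (-w.im) ≤ Real.exp |w.im| := Real.exp_le_exp.2 (neg_le_abs _)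
  rw [div_le_iff₀ (by norm_num)]
  linarith

lemma one_add_ne {u : ℂ} (hu : ‖u‖ < 1) : 1 + u ≠ 0 := by
  intro h
  have : u = -1 := by linear_combination h
  rw [this, norm_neg, norm_one] at hu
  exact lt_irrefl _ hu

lemma uu_lt {N : ℕ} (hN : 0 < N) {w : ℂ} (hw : 0 < w.im) : ‖uu N w‖ < 1 := by
  rw [norm_uu, Real.exp_lt_one_iff]
  have : (0 : ℝ) < N := by exact_mod_cast hN
  have : 0 < N * w.im := by positivity
  linarith

lemma uu_diff (N : ℕ) : Differentiable ℂ (uu N) := by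
  unfold uu
  fun_prop

lemma pp_diff {N : ℕ} (hN : 0 < N) {U : Set ℂ} (hU : ∀ w ∈ U, 0 < w.im) :
    DifferentiableOn ℂ (pp N) U := by
  intro w hw
  apply DifferentiableAt.differentiableWithinAt
  unfold pp
  apply DifferentiableAt.div
  · fun_prop
  · exact ((differentiableAt_const _).add (uu_diff N w)).pow 2
  · exact pow_ne_zero _ (one_add_ne (uu_lt hN (hU w hw)))

/-- for `‖u‖ ≤ 1/2` -/
lemma inv_close {u : ℂ} (hu : ‖u‖ ≤ 1 / 2) : ‖1 - 1 / (1 + u) ^ 2‖ ≤ 10 * ‖u‖ := by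
  have h0 : 1 + u ≠ 0 := one_add_ne (by linarith)
  have h1 : 1 / 2 ≤ ‖1 + u‖ := by
    have := norm_sub_norm_le (1 : ℂ) (-u)
    rw [norm_one, norm_neg, sub_neg_eq_add] at this
    linarith
  have h2 : 1 - 1 / (1 + u) ^ 2 = u * (2 + u) / (1 + u) ^ 2 := by
    field_simp
    ring
  rw [h2, norm_div, norm_mul, norm_pow, div_le_iff₀ (by positivity)]
  have h3 : ‖2 + u‖ ≤ 5 / 2 := by
    refine (norm_add_le _ _).trans ?_
    rw [Complex.norm_ofNat]
    linarith
  have h4 : 1 / 4 ≤ ‖1 + u‖ ^ 2 := by nlinarith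
  have h5 : 0 ≤ ‖u‖ := norm_nonneg _
  calc ‖u‖ * ‖2 + u‖ ≤ ‖u‖ * (5 / 2) := mul_le_mul_of_nonneg_left h3 h5
    _ = 10 * ‖u‖ * (1 / 4) := by ring
    _ ≤ _ := mul_le_mul_of_nonneg_left h4 (by positivity)

/-- the limit of `pp` -/
lemma pp_lim {h H : ℝ} (hh : 0 < h) {U : Set ℂ} (hU : ∀ w ∈ U, h ≤ w.im ∧ w.im ≤ H) :
    TendstoUniformlyOn pp (fun w => 2 * Complex.sin w) atTop U := by
  rw [Metric.tendstoUniformlyOn_iff]
  intro ε hε
  have h1 : Tendsto (fun N : ℕ => Real.exp (-(h * (N : ℝ)))) atTop (𝓝 0) := by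
    rw [Real.tendsto_exp_comp_nhds_zero]
    exact tendsto_neg_atTop_atBot.comp
      (Tendsto.const_mul_atTop hh tendsto_natCast_atTop_atTop)
  have h2 : ∀ᶠ N : ℕ in atTop, Real.exp (-(h * (N : ℝ))) < min (1 / 2) (ε / (20 * Real.exp H)) :=
    h1.eventually_lt_const (lt_min (by norm_num) (by positivity))
  filter_upwards [h2] with N hN w hw
  obtain ⟨hw1, hw2⟩ := hU w hw
  have k1 : ‖uu N w‖ ≤ Real.exp (-(h * (N : ℝ))) := by
    rw [norm_uu]
    apply Real.exp_le_exp.2
    have : h * N ≤ N * w.im := by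
      rw [mul_comm]
      exact mul_le_mul_of_nonneg_left hw1 (Nat.cast_nonneg _)
    linarith
  have k2 : ‖uu N w‖ < 1 / 2 := k1.trans_lt (hN.trans_le (min_le_left _ _))
  have k3 : ‖uu N w‖ < ε / (20 * Real.exp H) := k1.trans_lt (hN.trans_le (min_le_right _ _))
  have k4 := inv_close k2.le
  have k5 : ‖Complex.sin w‖ ≤ Real.exp H := by
    refine (norm_sin_le w).trans (Real.exp_le_exp.2 ?_)
    rw [abs_of_pos (lt_of_lt_of_le hh hw1)]
    exact hw2
  rw [dist_eq_norm]
  have e : 2 * Complex.sin w - pp N w = 2 * Complex.sin w * (1 - 1 / (1 + uu N w) ^ 2) := by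
    unfold pp
    ring
  rw [e, norm_mul, norm_mul, Complex.norm_ofNat]
  rw [lt_div_iff₀ (by positivity)] at k3
  calc 2 * ‖Complex.sin w‖ * ‖1 - 1 / (1 + uu N w) ^ 2‖ ≤ 2 * Real.exp H * (10 * ‖uu N w‖) := by
        apply mul_le_mul _ k4 (norm_nonneg _) (by positivity)
        linarith
    _ = ‖uu N w‖ * (20 * Real.exp H) := by ring
    _ < ε := k3

/-- bound of `pp` for `Im w ≥ 1 / N` -/
lemma pp_bd {N : ℕ} (hN : 0 < N) {H : ℝ} {w : ℂ} (h1 : 1 / (N : ℝ) ≤ w.im) (h2 : w.im ≤ H) :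
    ‖pp N w‖ ≤ 8 * Real.exp H := by
  have hN' : (0 : ℝ) < N := by exact_mod_cast hN
  have hw : 0 < w.im := lt_of_lt_of_le (by positivity) h1
  have k1 : ‖uu N w‖ ≤ 1 / 2 := by
    rw [norm_uu]
    have : 1 ≤ N * w.im := by
      rw [div_le_iff₀ hN'] at h1
      linarith
    refine (Real.exp_le_exp.2 (show -(N * w.im) ≤ -1 by linarith)).trans ?_
    rw [Real.exp_neg, ← one_div]
    apply one_div_le_one_div_of_le (by norm_num)
    have := Real.add_one_le_exp (1 : ℝ)
    linarith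
  have k2 : 1 / 2 ≤ ‖1 + uu N w‖ := by
    have := norm_sub_norm_le (1 : ℂ) (-(uu N w))
    rw [norm_one, norm_neg, sub_neg_eq_add] at this
    linarith
  have k3 : ‖Complex.sin w‖ ≤ Real.exp H := by
    refine (norm_sin_le w).trans (Real.exp_le_exp.2 ?_)
    rw [abs_of_pos hw]
    exact h2
  unfold pp
  rw [norm_div, norm_mul, Complex.norm_ofNat, norm_pow, div_le_iff₀ (by positivity)]
  have k4 : 1 / 4 ≤ ‖1 + uu N w‖ ^ 2 := by nlinarith
  have : 8 * Real.exp H * (1 / 4) ≤ 8 * Real.exp H * ‖1 + uu N w‖ ^ 2 :=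
    mul_le_mul_of_nonneg_left k4 (by positivity)
  linarith

/-- logarithmic size of a sum with a dominating term -/
lemma log_lim {M T : ℕ → ℂ} {V κ C : ℝ} (hκ : 0 < κ) (hC : 0 ≤ C)
    (hM : ∀ ε : ℝ, 0 < ε → ∀ᶠ N : ℕ in atTop, Real.exp (N * (V - ε)) ≤ ‖M N‖ ∧
      ‖M N‖ ≤ Real.exp (N * (V + ε)))
    (hT : ∀ᶠ N : ℕ in atTop, ‖T N - M N‖ ≤ C * Real.exp (N * (V - κ))) :
    Tendsto (fun N : ℕ => Real.log ‖T N‖ / N) atTop (𝓝 V) := by
  rw [Metric.tendsto_atTop']
  intro ε hε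
  obtain ⟨δ, hδ⟩ : ∃ δ : ℝ, δ = min ε κ / 4 := ⟨_, rfl⟩
  have hδ0 : 0 < δ := by rw [hδ]; have := lt_min hε hκ; linarith
  have hδ1 : δ ≤ ε / 4 := by rw [hδ]; have := min_le_left ε κ; linarith
  have hδ2 : δ ≤ κ / 4 := by rw [hδ]; have := min_le_right ε κ; linarith
  have h1 : Tendsto (fun N : ℕ => Real.exp (δ * (N : ℝ))) atTop atTop :=
    Real.tendsto_exp_atTop.comp (Tendsto.const_mul_atTop hδ0 tendsto_natCast_atTop_atTop)
  have hev := (hM δ hδ0).and (hT.and ((h1.eventually_ge_atTop (2 * (1 + C))).and (eventually_gt_atTop 0)))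
  obtain ⟨N0, hN0⟩ := eventually_atTop.1 hev
  refine ⟨N0, fun N hN => ?_⟩
  obtain ⟨⟨m1, m2⟩, t1, g1, hNp⟩ := hN0 N hN.le
  have hN' : (0 : ℝ) < N := by exact_mod_cast hNp
  have n1 : ‖T N‖ ≤ ‖M N‖ + ‖T N - M N‖ := by
    have := norm_add_le (M N) (T N - M N)
    rwa [add_sub_cancel] at this
  have n2 : ‖M N‖ - ‖T N - M N‖ ≤ ‖T N‖ := by
    have := norm_sub_norm_le (M N) (M N - T N)
    rw [sub_sub_cancel, norm_sub_rev (M N) (T N)] at this
    exact this
  -- upper bound
  have u1 : ‖T N‖ ≤ Real.exp (N * (V + 2 * δ)) := by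
    have a1 : Real.exp (N * (V - κ)) ≤ Real.exp (N * (V + δ)) := by
      apply Real.exp_le_exp.2
      apply mul_le_mul_of_nonneg_left _ hN'.le
      linarith
    have a2 : Real.exp (N * (V + 2 * δ)) = Real.exp (N * (V + δ)) * Real.exp (δ * N) := by
      rw [← Real.exp_add]; congr 1; ring
    have a3 : C * Real.exp (N * (V - κ)) ≤ C * Real.exp (N * (V + δ)) :=
      mul_le_mul_of_nonneg_left a1 hC
    have a4 : Real.exp (N * (V + δ)) * (1 + C) ≤ Real.exp (N * (V + δ)) * Real.exp (δ * N) :=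
      mul_le_mul_of_nonneg_left (by linarith) (Real.exp_pos _).le
    rw [a2]
    linarith
  have u2 : Real.exp (N * (V - 2 * δ)) ≤ ‖T N‖ := by
    have a1 : Real.exp (N * (V - κ)) ≤ Real.exp (N * (V - 2 * δ)) := by
      apply Real.exp_le_exp.2
      apply mul_le_mul_of_nonneg_left _ hN'.le
      linarith
    have a2 : Real.exp (N * (V - δ)) = Real.exp (N * (V - 2 * δ)) * Real.exp (δ * N) := by
      rw [← Real.exp_add]; congr 1; ring
    have a3 : C * Real.exp (N * (V - κ)) ≤ C * Real.exp (N * (V - 2 * δ)) :=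
      mul_le_mul_of_nonneg_left a1 hC
    have a4 : Real.exp (N * (V - 2 * δ)) * (1 + C) ≤ Real.exp (N * (V - 2 * δ)) * Real.exp (δ * N) :=
      mul_le_mul_of_nonneg_left (by linarith) (Real.exp_pos _).le
    rw [← a2] at a4
    linarith
  have hTp : 0 < ‖T N‖ := lt_of_lt_of_le (Real.exp_pos _) u2
  rw [← Real.log_le_iff_le_exp hTp] at u1
  rw [← Real.le_log_iff_exp_le hTp] at u2
  rw [Real.dist_eq, abs_lt]
  constructor
  · rw [lt_sub_iff_add_lt, lt_div_iff₀ hN']
    have : (-ε + V) * N < N * (V - 2 * δ) := by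
      rw [mul_comm]
      apply mul_lt_mul_of_pos_left _ hN'
      linarith
    linarith
  · rw [sub_lt_iff_lt_add, div_lt_iff₀ hN']
    have : N * (V + 2 * δ) < (ε + V) * N := by
      rw [mul_comm _ (N : ℝ)]
      apply mul_lt_mul_of_pos_left _ hN'
      linarith
    linarith

/-- compactness on a vertical side -/
lemma side {f : ℂ → ℂ} {K : Set ℂ} (hf : ContinuousOn f K) {c h V : ℝ} (hh : 0 ≤ h)
    (hK : ∀ y : ℝ, 0 ≤ y → y ≤ h → ((c : ℂ) + y * Complex.I) ∈ K)
    (hlt : ∀ y : ℝ, 0 ≤ y → y ≤ h → (f (c + y * Complex.I)).re < V) :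
    ∃ κ : ℝ, 0 < κ ∧ ∀ y : ℝ, 0 ≤ y → y ≤ h → (f (c + y * Complex.I)).re ≤ V - κ := by
  have hcont : ContinuousOn (fun y : ℝ => (f (c + y * Complex.I)).re) (Set.Icc 0 h) := by
    apply Complex.continuous_re.comp_continuousOn
    apply hf.comp (by fun_prop)
    intro y hy
    exact hK y hy.1 hy.2
  obtain ⟨y0, hy0, hmax⟩ := isCompact_Icc.exists_isMaxOn ⟨0, Set.left_mem_Icc.2 hh⟩ hcont
  refine ⟨V - (f (c + y0 * Complex.I)).re, by linarith [hlt y0 hy0.1 hy0.2], fun y h1 h2 => ?_⟩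
  have : (f (c + y * Complex.I)).re ≤ (f (c + y0 * Complex.I)).re := hmax ⟨h1, h2⟩
  linarith

lemma open_Rc (a b : ℝ) : IsOpen (Rc a b) := by
  have h1 : IsOpen {z : ℂ | |z.re| < a} := isOpen_lt (by fun_prop) continuous_const
  have h2 : IsOpen {z : ℂ | |z.im| < b} := isOpen_lt (by fun_prop) continuous_const
  exact h1.inter h2

/-- bottom of a rectangle -/
lemma rect_eq {f : ℂ → ℂ} {ρ h H : ℝ} (hρ : 0 ≤ ρ) (hh : h ≤ H)
    (hf : ∀ w : ℂ, -ρ ≤ w.re → w.re ≤ ρ → h ≤ w.im → w.im ≤ H → DifferentiableAt ℂ f w) :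
    (∫ x in (-ρ)..ρ, f (x + h * Complex.I)) = (∫ x in (-ρ)..ρ, f (x + H * Complex.I)) +
      (Complex.I * (∫ y in h..H, f (-ρ + y * Complex.I)) -
       Complex.I * (∫ y in h..H, f (ρ + y * Complex.I))) := by
  have h1 := Complex.integral_boundary_rect_eq_zero_of_differentiableOn f
    (⟨-ρ, h⟩ : ℂ) (⟨ρ, H⟩ : ℂ) (by
      intro w hw
      rw [Complex.mem_reProdIm] at hw
      simp only [Set.uIcc_of_le hh, Set.uIcc_of_le (show -ρ ≤ ρ by linarith), Set.mem_Icc] at hw
      exact (hf w hw.1.1 hw.1.2 hw.2.1 hw.2.2).differentiableWithinAt)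
  simp only [smul_eq_mul, Complex.ofReal_neg] at h1
  linear_combination h1

theorem lapint : S_LAPC → S_LOG → S_LAPINT := by
  intro hLAPC hLOG Y G a ρ τ z hρ hτ _ hYd hGd hMW hzr hz0 hzτ hsin hcrit hneg hline hside
  have hopen : IsOpen (Rc (2 * ρ) (2 * τ)) := open_Rc _ _
  have hconv : Convex ℝ (Rc (2 * ρ) (2 * τ)) := by
    intro x hx y hy s t hs ht hst
    obtain ⟨x1, x2⟩ := hx
    obtain ⟨y1, y2⟩ := hy
    have e1 : (s • x + t • y).re = s * x.re + t * y.re := by simp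
    have e2 : (s • x + t • y).im = s * x.im + t * y.im := by simp
    have key : ∀ p q c : ℝ, |p| < c → |q| < c → |s * p + t * q| < c := by
      intro p q c hp hq
      have h1 : |s * p + t * q| ≤ s * |p| + t * |q| := by
        refine (abs_add_le _ _).trans ?_
        rw [abs_mul, abs_mul, abs_of_nonneg hs, abs_of_nonneg ht]
      rcases hs.eq_or_lt with h0 | h0
      · rw [← h0] at hst h1
        have : t = 1 := by linarith
        rw [this] at h1
        rw [← h0, this]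
        linarith
      · have h2 : s * |p| < s * c := mul_lt_mul_of_pos_left hp h0
        have h3 : t * |q| ≤ t * c := mul_le_mul_of_nonneg_left hq.le ht
        have h4 : s * c + t * c = c := by rw [← add_mul, hst, one_mul]
        linarith
    exact ⟨by rw [e1]; exact key _ _ _ x1 y1, by rw [e2]; exact key _ _ _ x2 y2⟩
  obtain ⟨K, hK⟩ : ∃ K : Set ℂ, K = Set.Icc (-(3 / 2 * ρ)) (3 / 2 * ρ) ×ℂ
    Set.Icc (-(3 / 2 * τ)) (3 / 2 * τ) := ⟨_, rfl⟩
  have hKc : IsCompact K := by rw [hK]; exact isCompact_Icc.reProdIm isCompact_Icc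
  have hKm : ∀ w : ℂ, w ∈ K ↔ |w.re| ≤ 3 / 2 * ρ ∧ |w.im| ≤ 3 / 2 * τ := by
    intro w
    rw [hK, Complex.mem_reProdIm, Set.mem_Icc, Set.mem_Icc, abs_le, abs_le]
  have hKU : K ⊆ Rc (2 * ρ) (2 * τ) := by
    intro w hw
    rw [hKm] at hw
    exact ⟨by linarith [hw.1], by linarith [hw.2]⟩
  obtain ⟨g, c, hc1, hgd, hglim⟩ := hLOG Y G _ K hopen hconv hYd hGd hMW hKc hKU
  -- the open set for the Laplace method
  obtain ⟨U, hU⟩ : ∃ U : Set ℂ, U = {w : ℂ | |w.re| < 3 / 2 * ρ ∧ z.im / 2 < w.im ∧ w.im < 3 / 2 * τ} :=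
    ⟨_, rfl⟩
  have hUo : IsOpen U := by
    rw [hU]
    have o1 : IsOpen {w : ℂ | |w.re| < 3 / 2 * ρ} := isOpen_lt (by fun_prop) continuous_const
    have o2 : IsOpen {w : ℂ | z.im / 2 < w.im} := isOpen_lt continuous_const (by fun_prop)
    have o3 : IsOpen {w : ℂ | w.im < 3 / 2 * τ} := isOpen_lt (by fun_prop) continuous_const
    exact o1.inter (o2.inter o3)
  have hUm : ∀ w ∈ U, |w.re| < 3 / 2 * ρ ∧ z.im / 2 < w.im ∧ w.im < 3 / 2 * τ := by
    intro w hw; rw [hU] at hw; exact hw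
  have hUK : U ⊆ K := by
    intro w hw
    have := hUm w hw
    rw [hKm, abs_of_pos (show 0 < w.im by linarith [this.2.1])]
    exact ⟨this.1.le, this.2.2.le⟩
  have hpol : Differentiable ℂ (fun w : ℂ => Complex.I * a * w ^ 2 / (4 * π) + Complex.I * w) := by
    fun_prop
  have hqqd : DifferentiableOn ℂ (qq a G) (Rc (2 * ρ) (2 * τ)) := by
    unfold qq
    exact hpol.differentiableOn.add hGd
  obtain ⟨V, hV⟩ : ∃ V : ℝ, V = (qq a G z).re := ⟨_, rfl⟩
  rw [← hV] at hline hside ⊢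
  -- the potentials
  obtain ⟨q, hq⟩ : ∃ q : ℕ → ℂ → ℂ, q = fun N w => qq a (g N) w := ⟨_, rfl⟩
  have hqe : ∀ N w, q N w = qq a (g N) w := fun N w => by rw [hq]
  have hqd : ∀ᶠ N : ℕ in atTop, DifferentiableOn ℂ (q N) (Rc (2 * ρ) (2 * τ)) := by
    filter_upwards [hgd] with N hN
    rw [hq]
    unfold qq
    exact hpol.differentiableOn.add hN.1
  have hqlim : TendstoUniformlyOn q (qq a G) atTop K := by
    rw [Metric.tendstoUniformlyOn_iff] at hglim ⊢
    intro ε hε
    filter_upwards [hglim ε hε] with N hN w hw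
    have := hN w hw
    rw [dist_eq_norm] at this ⊢
    have e : qq a G w - q N w = G w - g N w := by
      rw [hqe]; unfold qq; ring
    rw [e]; exact this
  -- Laplace method
  obtain ⟨k, hk⟩ : ∃ k : ℝ, k = 1 - V := ⟨_, rfl⟩
  have hlap := hLAPC (fun N w => q N w + k) pp (fun w => qq a G w + k) (fun w => 2 * Complex.sin w)
    U (-ρ) ρ z hUo (by
      filter_upwards [hqd] with N hN
      exact (hN.mono (hUK.trans hKU)).add_const _)
    ((hqqd.mono (hUK.trans hKU)).add_const _) (by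
      have := hqlim.mono hUK
      rw [Metric.tendstoUniformlyOn_iff] at this ⊢
      intro ε hε
      filter_upwards [this ε hε] with N hN w hw
      have := hN w hw
      rw [dist_add_right]
      exact this) (by
      filter_upwards [eventually_gt_atTop 0] with N hN
      exact pp_diff hN (fun w hw => by linarith [(hUm w hw).2.1])) (by fun_prop)
    (pp_lim (h := z.im / 2) (H := 3 / 2 * τ) (by linarith)
      (fun w hw => ⟨(hUm w hw).2.1.le, (hUm w hw).2.2.le⟩))
    (by linarith [(abs_lt.1 hzr).1]) (by linarith [(abs_lt.1 hzr).2]) (by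
      intro x hx1 hx2
      rw [hU]
      have e1 : ((x : ℂ) + z.im * Complex.I).re = x := by simp
      have e2 : ((x : ℂ) + z.im * Complex.I).im = z.im := by simp
      refine ⟨?_, ?_, ?_⟩
      · rw [e1]
        have : |x| ≤ ρ := abs_le.2 ⟨hx1, hx2⟩
        linarith
      · rw [e2]; linarith
      · rw [e2]; linarith) (by
      rw [deriv_add_const]; exact hcrit) (by
      have : deriv (fun w => qq a G w + (k : ℂ)) = deriv (qq a G) := by
        funext w; rw [deriv_add_const]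
      rw [this]; exact hneg) (by
      exact mul_ne_zero two_ne_zero hsin) (by
      intro x hx1 hx2 hxz
      rw [Complex.add_re, Complex.add_re, Complex.ofReal_re]
      have := hline x (abs_le.2 ⟨hx1, hx2⟩) hxz
      rw [hV] at this
      linarith)
  have hVk : (qq a G z + (k : ℂ)).re = 1 := by
    rw [Complex.add_re, Complex.ofReal_re, ← hV, hk]; ring
  rw [hVk] at hlap
  -- the main term
  obtain ⟨M, hM⟩ : ∃ M : ℕ → ℂ, M = fun N => ∫ x in (-ρ)..ρ, pp N (x + z.im * Complex.I) *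
    Complex.exp (N * q N (x + z.im * Complex.I)) := ⟨_, rfl⟩
  have hMb : ∀ ε : ℝ, 0 < ε → ∀ᶠ N : ℕ in atTop, Real.exp (N * (V - ε)) ≤ ‖M N‖ ∧
      ‖M N‖ ≤ Real.exp (N * (V + ε)) := by
    intro ε hε
    rw [Metric.tendsto_atTop] at hlap
    obtain ⟨N1, hN1⟩ := hlap (min ε (1 / 2)) (lt_min hε (by norm_num))
    filter_upwards [eventually_ge_atTop N1, eventually_gt_atTop 0] with N h1 h2
    have hN' : (0 : ℝ) < N := by exact_mod_cast h2
    have h3 := hN1 N h1
    obtain ⟨I1, hI1⟩ : ∃ I1 : ℂ, I1 = ∫ x in (-ρ)..ρ, pp N (x + z.im * Complex.I) *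
      Complex.exp (N * (q N (x + z.im * Complex.I) + k)) := ⟨_, rfl⟩
    rw [← hI1] at h3
    have h4 : I1 = Complex.exp (N * k) * M N := by
      rw [hI1, hM, ← intervalIntegral.integral_const_mul]
      apply intervalIntegral.integral_congr
      intro x _
      show pp N (x + z.im * Complex.I) * Complex.exp (N * (q N (x + z.im * Complex.I) + k)) =
        Complex.exp (N * k) * (pp N (x + z.im * Complex.I) * Complex.exp (N * q N (x + z.im * Complex.I)))
      rw [mul_add, Complex.exp_add]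
      ring
    have h5 : ‖I1‖ = Real.exp (N * k) * ‖M N‖ := by
      rw [h4, norm_mul, Complex.norm_exp]
      congr 2
      simp
    rw [Real.dist_eq, abs_lt, lt_sub_iff_add_lt, lt_div_iff₀ hN', sub_lt_iff_lt_add, div_lt_iff₀ hN'] at h3
    have m1 := min_le_left ε (1 / 2)
    have m2 := min_le_right ε (1 / 2)
    have h6 : 0 < Real.log ‖I1‖ := by nlinarith [h3.1]
    have h7 : 0 < ‖I1‖ := by
      rcases (norm_nonneg I1).eq_or_lt with h | h
      · rw [← h, Real.log_zero] at h6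
        exact absurd h6 (lt_irrefl _)
      · exact h
    have h8 : 0 < ‖M N‖ := by
      rw [h5] at h7
      exact (pos_iff_pos_of_mul_pos h7).1 (Real.exp_pos _)
    have h9 : Real.log ‖I1‖ = N * k + Real.log ‖M N‖ := by
      rw [h5, Real.log_mul (Real.exp_ne_zero _) h8.ne', Real.log_exp]
    rw [← Real.log_le_iff_le_exp h8, ← Real.le_log_iff_exp_le h8]
    rw [h9, hk] at h3
    have m3 : (-(min ε (1 / 2)) + 1) * N ≥ (-ε + 1) * N :=
      mul_le_mul_of_nonneg_right (by linarith) hN'.le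
    have m4 : (min ε (1 / 2) + 1) * N ≤ (ε + 1) * N :=
      mul_le_mul_of_nonneg_right (by linarith) hN'.le
    constructor
    · nlinarith [h3.1]
    · nlinarith [h3.2]
  -- the vertical sides
  have hcontK : ContinuousOn (qq a G) K := hqqd.continuousOn.mono hKU
  obtain ⟨κ1, hκ1, hs1⟩ := side (f := qq a G) hcontK (c := ρ) (h := z.im) (V := V) hz0.le (by
    intro y h1 h2
    rw [hKm]
    have e1 : ((ρ : ℂ) + y * Complex.I).re = ρ := by simp
    have e2 : ((ρ : ℂ) + y * Complex.I).im = y := by simp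
    rw [e1, e2, abs_of_pos hρ, abs_of_nonneg h1]
    constructor <;> linarith) (fun y h1 h2 => (hside y h1 h2).1)
  obtain ⟨κ2, hκ2, hs2⟩ := side (f := qq a G) hcontK (c := -ρ) (h := z.im) (V := V) hz0.le (by
    intro y h1 h2
    rw [hKm]
    have e1 : (((-ρ : ℝ) : ℂ) + y * Complex.I).re = -ρ := by simp
    have e2 : (((-ρ : ℝ) : ℂ) + y * Complex.I).im = y := by simp
    rw [e1, e2, abs_neg, abs_of_pos hρ, abs_of_nonneg h1]
    constructor <;> linarith) (fun y h1 h2 => by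
      have := (hside y h1 h2).2
      push_cast
      exact this)
  obtain ⟨κ, hκ⟩ : ∃ κ : ℝ, κ = min κ1 κ2 / 2 := ⟨_, rfl⟩
  have hκ0 : 0 < κ := by rw [hκ]; have := lt_min hκ1 hκ2; linarith
  have hκa : 2 * κ ≤ κ1 := by rw [hκ]; have := min_le_left κ1 κ2; linarith
  have hκb : 2 * κ ≤ κ2 := by rw [hκ]; have := min_le_right κ1 κ2; linarith
  -- conclusion
  obtain ⟨f, hf⟩ : ∃ f : ℕ → ℂ → ℂ, f = fun N w => pp N w * Complex.exp (N * q N w) := ⟨_, rfl⟩
  obtain ⟨T, hT⟩ : ∃ T : ℕ → ℂ, T = fun N => ∫ x in (-ρ)..ρ, f N (x + (1 / N : ℝ) * Complex.I) :=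
    ⟨_, rfl⟩
  have hTT : Tendsto (fun N : ℕ => Real.log ‖T N‖ / N) atTop (𝓝 V) := by
    refine log_lim (M := M) (C := 2 * (8 * Real.exp τ * z.im)) hκ0 (by positivity) hMb ?_
    have hqlim' := hqlim
    rw [Metric.tendstoUniformlyOn_iff] at hqlim'
    have hev : ∀ᶠ N : ℕ in atTop, (1 : ℝ) / N ≤ z.im := by
      have : Tendsto (fun N : ℕ => (1 : ℝ) / (N : ℝ)) atTop (𝓝 0) :=
        tendsto_const_div_atTop_nhds_zero_nat _
      exact (this.eventually_lt_const hz0).mono (fun N hN => hN.le)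
    filter_upwards [hqlim' κ hκ0, hqd, hev, eventually_gt_atTop 0] with N h1 h2 h3 h4
    have hN' : (0 : ℝ) < N := by exact_mod_cast h4
    have hr := rect_eq (f := f N) (ρ := ρ) (h := 1 / N) (H := z.im) hρ.le h3 (by
      intro w w1 w2 w3 w4
      have wpos : 0 < w.im := lt_of_lt_of_le (by positivity) w3
      have hwU : w ∈ Rc (2 * ρ) (2 * τ) := by
        refine ⟨?_, ?_⟩
        · have : |w.re| ≤ ρ := abs_le.2 ⟨w1, w2⟩
          linarith
        · rw [abs_of_pos wpos]; linarith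
      have d1 : DifferentiableAt ℂ (q N) w := (h2 w hwU).differentiableAt (hopen.mem_nhds hwU)
      have d2 : DifferentiableAt ℂ (pp N) w :=
        (pp_diff h4 (U := {w | 0 < w.im}) (fun w hw => hw) w wpos).differentiableAt
          ((isOpen_lt (by fun_prop) (by fun_prop)).mem_nhds wpos)
      rw [hf]
      exact d2.mul (d1.const_mul _).cexp)
    have hbd : ∀ c : ℝ, |c| = ρ → (∀ y : ℝ, 0 ≤ y → y ≤ z.im → (qq a G (c + y * Complex.I)).re ≤ V - 2 * κ) →
        ‖∫ y in (1 / (N : ℝ))..z.im, f N (c + y * Complex.I)‖ ≤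
          8 * Real.exp τ * z.im * Real.exp (N * (V - κ)) := by
      intro c hc hcV
      have h5 : ∀ y ∈ Set.uIoc (1 / (N : ℝ)) z.im, ‖f N (c + y * Complex.I)‖ ≤
          8 * Real.exp τ * Real.exp (N * (V - κ)) := by
        intro y hy
        rw [Set.uIoc_of_le h3] at hy
        have y0 : 0 < y := lt_of_lt_of_le (by positivity) hy.1.le
        have e1 : ((c : ℂ) + y * Complex.I).re = c := by simp
        have e2 : ((c : ℂ) + y * Complex.I).im = y := by simp
        rw [hf]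
        show ‖pp N (c + y * Complex.I) * Complex.exp (N * q N (c + y * Complex.I))‖ ≤ _
        rw [norm_mul]
        have b1 : ‖pp N ((c : ℂ) + y * Complex.I)‖ ≤ 8 * Real.exp τ :=
          pp_bd h4 (by rw [e2]; exact hy.1.le) (by rw [e2]; linarith [hy.2])
        have b2 : ‖Complex.exp (N * q N ((c : ℂ) + y * Complex.I))‖ ≤ Real.exp (N * (V - κ)) := by
          rw [Complex.norm_exp]
          apply Real.exp_le_exp.2
          have : ((N : ℂ) * q N ((c : ℂ) + y * Complex.I)).re = N * (q N ((c : ℂ) + y * Complex.I)).re := by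
            simp
          rw [this]
          apply mul_le_mul_of_nonneg_left _ hN'.le
          have hin : ((c : ℂ) + y * Complex.I) ∈ K := by
            rw [hKm, e1, e2, hc, abs_of_pos y0]
            constructor <;> linarith [hy.2]
          have h6 := h1 _ hin
          rw [dist_comm, dist_eq_norm] at h6
          have h7 := (Complex.abs_re_le_norm _).trans h6.le
          rw [Complex.sub_re] at h7
          have h8 := (abs_le.1 h7).2
          have h9 := hcV y y0.le hy.2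
          linarith
        exact mul_le_mul b1 b2 (norm_nonneg _) (by positivity)
      refine (intervalIntegral.norm_integral_le_of_norm_le_const h5).trans ?_
      rw [abs_of_nonneg (by linarith)]
      have : z.im - 1 / (N : ℝ) ≤ z.im := by
        have : 0 < 1 / (N : ℝ) := by positivity
        linarith
      calc 8 * Real.exp τ * Real.exp (N * (V - κ)) * (z.im - 1 / N) ≤
          8 * Real.exp τ * Real.exp (N * (V - κ)) * z.im :=
            mul_le_mul_of_nonneg_left this (by positivity)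
        _ = _ := by ring
    have b1 := hbd ρ (abs_of_pos hρ) (fun y h1 h2 => by linarith [hs1 y h1 h2])
    have b2 := hbd (-ρ) (by rw [abs_neg, abs_of_pos hρ]) (fun y h1 h2 => by linarith [hs2 y h1 h2])
    have e : T N - M N = Complex.I * (∫ y in (1 / (N : ℝ))..z.im, f N (((-ρ : ℝ) : ℂ) + y * Complex.I)) -
       Complex.I * (∫ y in (1 / (N : ℝ))..z.im, f N (ρ + y * Complex.I)) := by
      have e1 : T N = ∫ x in (-ρ)..ρ, f N (x + (1 / N : ℝ) * Complex.I) := by rw [hT]
      have e2 : M N = ∫ x in (-ρ)..ρ, f N (x + z.im * Complex.I) := by rw [hM, hf]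
      rw [e1, hr, e2, Complex.ofReal_neg]
      ring
    rw [e]
    refine (norm_sub_le _ _).trans ?_
    rw [norm_mul, norm_mul, Complex.norm_I, one_mul, one_mul]
    linarith
  refine hTT.congr' ?_
  filter_upwards [hgd, eventually_gt_atTop 0, (by
      have : Tendsto (fun N : ℕ => (1 : ℝ) / (N : ℝ)) atTop (𝓝 0) :=
        tendsto_const_div_atTop_nhds_zero_nat _
      exact (this.eventually_lt_const hτ) : ∀ᶠ N : ℕ in atTop, (1 : ℝ) / N < τ)] with N h1 h2 h3
  congr 2
  have hN' : (0 : ℝ) < N := by exact_mod_cast h2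
  obtain ⟨d, hd⟩ : ∃ d : ℂ, d = c N * Complex.exp (Complex.I * N * π) := ⟨_, rfl⟩
  have hd1 : ‖d‖ = 1 := by
    rw [hd, norm_mul, hc1, one_mul, Complex.norm_exp]
    simp
  have hint : (∫ x in (-ρ)..ρ, Ea a N (x + (1 / N : ℝ) * Complex.I) *
    Y N (x + (1 / N : ℝ) * Complex.I) * kr N (x + (1 / N : ℝ) * Complex.I)) = d * T N := by
    rw [hT, ← intervalIntegral.integral_const_mul]
    apply intervalIntegral.integral_congr
    intro x hx
    rw [Set.uIcc_of_le (by linarith)] at hx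
    have e1 : ((x : ℂ) + (1 / N : ℝ) * Complex.I).re = x := by simp
    have e2 : ((x : ℂ) + (1 / N : ℝ) * Complex.I).im = 1 / N := by simp
    have hin : ((x : ℂ) + (1 / N : ℝ) * Complex.I) ∈ Rc (2 * ρ) (2 * τ) := by
      refine ⟨?_, ?_⟩
      · rw [e1]
        have : |x| ≤ ρ := abs_le.2 hx
        linarith
      · rw [e2, abs_of_pos (by positivity)]
        linarith
    obtain ⟨w, hw⟩ : ∃ w : ℂ, w = (x : ℂ) + (1 / N : ℝ) * Complex.I := ⟨_, rfl⟩
    rw [← hw] at hin
    show Ea a N ((x : ℂ) + (1 / N : ℝ) * Complex.I) * Y N ((x : ℂ) + (1 / N : ℝ) * Complex.I) *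
      kr N ((x : ℂ) + (1 / N : ℝ) * Complex.I) = d * f N ((x : ℂ) + (1 / N : ℝ) * Complex.I)
    rw [← hw, h1.2 w hin, kr_eq, hf, hd]
    show Ea a N w * (c N * Complex.exp (N * g N w)) * (uu N w * pp N w) =
      c N * Complex.exp (Complex.I * N * π) * (pp N w * Complex.exp (N * q N w))
    have e3 : Complex.exp (N * q N w) = Ea a N w * Complex.exp (Complex.I * N * w) *
        Complex.exp (N * g N w) := by
      rw [hqe]
      unfold qq Ea
      rw [← Complex.exp_add, ← Complex.exp_add]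
      congr 1
      ring
    have e4 : uu N w = Complex.exp (Complex.I * N * w) * Complex.exp (Complex.I * N * π) := by
      unfold uu
      rw [← Complex.exp_add]
      congr 1
      ring
    rw [e3, e4]
    ring
  rw [hint, norm_mul, hd1, one_mul]

end Pool.Agent.W85.HT
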