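import Pool.Agent.W711.HT.Stm2
import Pool.Agent.W85.HT.LapInt

/-! # Project HT: preparations for the induction step -/

set_option autoImplicit false
set_option maxHeartbeats 1000000

namespace Pool.Agent.W85.HT

open Filter Finset Topology Metric Pool.Agent.W711.HT
open scoped Real

lemma Rp_diff (N d : ℕ) : Differentiable ℂ (Rp N d) := by
  unfold Rp
  fun_prop

lemma ker_diff (N : ℕ) (ψ' : ℂ) : Differentiable ℂ (fun ψ => ker N ψ ψ') := by
  unfold Pool.Agent.W711.HT.ker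
  apply Differentiable.fun_sum
  intro d _
  exact ((Rp_diff N d).mul_const _).div_const _

lemma ker_symm (N : ℕ) (ψ ψ' : ℂ) : ker N ψ ψ' = ker N ψ' ψ := by
  unfold Pool.Agent.W711.HT.ker
  refine Finset.sum_congr rfl fun d _ => ?_
  rw [mul_comm (Rp N d ψ)]

/-- exponential bounds from a positive limit -/
lemma bds {I1 M : ℕ → ℂ} {k V : ℝ} (hk : k = 1 - V)
    (h4 : ∀ N : ℕ, I1 N = Complex.exp (N * k) * M N)
    (hlap : Tendsto (fun N : ℕ => Real.log ‖I1 N‖ / N) atTop (𝓝 1)) :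
    ∀ ε : ℝ, 0 < ε → ∀ᶠ N : ℕ in atTop, Real.exp (N * (V - ε)) ≤ ‖M N‖ ∧
      ‖M N‖ ≤ Real.exp (N * (V + ε)) := by
  intro ε hε
  rw [Metric.tendsto_atTop] at hlap
  obtain ⟨N1, hN1⟩ := hlap (min ε (1 / 2)) (lt_min hε (by norm_num))
  filter_upwards [eventually_ge_atTop N1, eventually_gt_atTop 0] with N h1 h2
  have hN' : (0 : ℝ) < N := by exact_mod_cast h2
  have h3 := hN1 N h1
  have h5 : ‖I1 N‖ = Real.exp (N * k) * ‖M N‖ := by
    rw [h4, norm_mul, Complex.norm_exp]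
    congr 2
    simp
  rw [Real.dist_eq, abs_lt, lt_sub_iff_add_lt, lt_div_iff₀ hN', sub_lt_iff_lt_add, div_lt_iff₀ hN'] at h3
  have m1 := min_le_left ε (1 / 2)
  have m2 := min_le_right ε (1 / 2)
  have h6 : 0 < Real.log ‖I1 N‖ := by nlinarith [h3.1]
  have h7 : 0 < ‖I1 N‖ := by
    rcases (norm_nonneg (I1 N)).eq_or_lt with h | h
    · rw [← h, Real.log_zero] at h6
      exact absurd h6 (lt_irrefl _)
    · exact h
  have h8 : 0 < ‖M N‖ := by
    rw [h5] at h7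
    exact (pos_iff_pos_of_mul_pos h7).1 (Real.exp_pos _)
  have h9 : Real.log ‖I1 N‖ = N * k + Real.log ‖M N‖ := by
    rw [h5, Real.log_mul (Real.exp_ne_zero _) h8.ne', Real.log_exp]
  rw [← Real.log_le_iff_le_exp h8, ← Real.le_log_iff_exp_le h8]
  rw [h9, hk] at h3
  have m3 : (-(min ε (1 / 2)) + 1) * N ≥ (-ε + 1) * N :=
    mul_le_mul_of_nonneg_right (by linarith) hN'.le
  have m4 : (min ε (1 / 2) + 1) * N ≤ (ε + 1) * N :=
    mul_le_mul_of_nonneg_right (by linarith) hN'.le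
  constructor
  · nlinarith [h3.1]
  · nlinarith [h3.2]

lemma qq_shift (a : ℤ) (G : ℂ → ℂ) (k : ℂ) : qq a (fun w => G w + k) = fun w => qq a G w + k := by
  funext w
  unfold qq
  ring

/-- the strong form of `S_LAPINT` -/
lemma lap_strong (h : S_LAPINT) {Y : ℕ → ℂ → ℂ} {G : ℂ → ℂ} {a : ℤ} {ρ τ : ℝ} {z : ℂ}
    (hρ : 0 < ρ) (hτ : 0 < τ) (hρπ : 2 * ρ < π)
    (hYd : ∀ᶠ N : ℕ in atTop, DifferentiableOn ℂ (Y N) (Rc (2 * ρ) (2 * τ)))
    (hGd : DifferentiableOn ℂ G (Rc (2 * ρ) (2 * τ))) (hMW : MW Y G (Rc (2 * ρ) (2 * τ)))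
    (hz1 : |z.re| < ρ) (hz2 : 0 < z.im) (hz3 : z.im < τ) (hS : SAD a G ρ z) :
    ∀ ε : ℝ, 0 < ε → ∀ᶠ N : ℕ in atTop, Real.exp (N * ((qq a G z).re - ε)) ≤
      ‖∫ x in (-ρ)..ρ, Ea a N (x + (1 / N : ℝ) * Complex.I) *
        Y N (x + (1 / N : ℝ) * Complex.I) * kr N (x + (1 / N : ℝ) * Complex.I)‖ ∧
      ‖∫ x in (-ρ)..ρ, Ea a N (x + (1 / N : ℝ) * Complex.I) *
        Y N (x + (1 / N : ℝ) * Complex.I) * kr N (x + (1 / N : ℝ) * Complex.I)‖ ≤
      Real.exp (N * ((qq a G z).re + ε)) := by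
  obtain ⟨V, hV⟩ : ∃ V : ℝ, V = (qq a G z).re := ⟨_, rfl⟩
  obtain ⟨k, hk⟩ : ∃ k : ℝ, k = 1 - V := ⟨_, rfl⟩
  have hd1 : deriv (fun w => qq a G w + (k : ℂ)) = deriv (qq a G) := by
    funext w; rw [deriv_add_const]
  have h1 := h (fun N w => Complex.exp (N * k) * Y N w) (fun w => G w + k) a ρ τ z hρ hτ hρπ
    (by
      filter_upwards [hYd] with N hN
      exact hN.const_mul _)
    (hGd.add_const _)
    (by
      intro ε hε
      filter_upwards [hMW ε hε] with N hN w hw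
      obtain ⟨h1, h2⟩ := hN w hw
      refine ⟨mul_ne_zero (Complex.exp_ne_zero _) h1, ?_⟩
      have e1 : ‖Complex.exp ((N : ℂ) * k)‖ = Real.exp (N * k) := by
        rw [Complex.norm_exp]; congr 1; simp
      rw [norm_mul, e1, Real.log_mul (Real.exp_ne_zero _) (norm_ne_zero_iff.2 h1), Real.log_exp,
        Complex.add_re, Complex.ofReal_re]
      have e2 : (N : ℝ) * k + Real.log ‖Y N w‖ - N * ((G w).re + k) = Real.log ‖Y N w‖ - N * (G w).re := by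
        ring
      rw [e2]
      exact h2)
    hz1 hz2 hz3 hS.sn
    (by rw [qq_shift, hd1]; exact hS.crit)
    (by rw [qq_shift, hd1]; exact hS.neg)
    (by
      intro x hx hxz
      rw [qq_shift]
      simp only [Complex.add_re]
      linarith [hS.line x hx hxz])
    (by
      intro y hy hy'
      rw [qq_shift]
      simp only [Complex.add_re]
      have := hS.side y hy hy'
      exact ⟨by linarith [this.1], by linarith [this.2]⟩)
  have h2 : (qq a (fun w => G w + (k : ℂ)) z).re = 1 := by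
    rw [qq_shift, Complex.add_re, Complex.ofReal_re, ← hV, hk]; ring
  rw [h2] at h1
  rw [← hV]
  refine bds hk ?_ h1
  intro N
  rw [← intervalIntegral.integral_const_mul]
  apply intervalIntegral.integral_congr
  intro x _
  show Ea a N (x + (1 / N : ℝ) * Complex.I) * (Complex.exp (N * k) *
        Y N (x + (1 / N : ℝ) * Complex.I)) * kr N (x + (1 / N : ℝ) * Complex.I) =
    Complex.exp (N * k) * (Ea a N (x + (1 / N : ℝ) * Complex.I) *
        Y N (x + (1 / N : ℝ) * Complex.I) * kr N (x + (1 / N : ℝ) * Complex.I))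
  ring

lemma Rc_mono {a b c d : ℝ} (h1 : a ≤ c) (h2 : b ≤ d) : Rc a b ⊆ Rc c d :=
  fun _ hw => ⟨lt_of_lt_of_le hw.1 h1, lt_of_lt_of_le hw.2 h2⟩

lemma xy_re (x y : ℝ) : ((x : ℂ) + y * Complex.I).re = x := by simp
lemma xy_im (x y : ℝ) : ((x : ℂ) + y * Complex.I).im = y := by simp

/-- the closed rectangle -/
def Kc (ρ τ : ℝ) : Set ℂ := Set.Icc (-ρ) ρ ×ℂ Set.Icc (-τ) τ

lemma Kc_mem {ρ τ : ℝ} {w : ℂ} : w ∈ Kc ρ τ ↔ |w.re| ≤ ρ ∧ |w.im| ≤ τ := by
  unfold Kc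
  rw [Complex.mem_reProdIm, Set.mem_Icc, Set.mem_Icc, abs_le, abs_le]

lemma Kc_compact (ρ τ : ℝ) : IsCompact (Kc ρ τ) := isCompact_Icc.reProdIm isCompact_Icc

/-- uniform continuity in the second variable -/
lemma unif {s : ℂ → ℂ → ℂ} {K : Set ℂ} (hK : IsCompact K)
    (hs : ContinuousOn (fun p : ℂ × ℂ => s p.1 p.2) (K ×ˢ K)) {p : ℕ → ℂ} {p₀ : ℂ}
    (hp : ∀ N, p N ∈ K) (hp0 : p₀ ∈ K) (hlim : Tendsto p atTop (𝓝 p₀)) {ε : ℝ} (hε : 0 < ε) :
    ∀ᶠ N : ℕ in atTop, ∀ w ∈ K, ‖s w (p N) - s w p₀‖ < ε := by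
  have huc := (hK.prod hK).uniformContinuousOn_of_continuous hs
  rw [Metric.uniformContinuousOn_iff] at huc
  obtain ⟨δ, hδ, hδ2⟩ := huc ε hε
  rw [Metric.tendsto_atTop] at hlim
  obtain ⟨N0, hN0⟩ := hlim δ hδ
  filter_upwards [eventually_ge_atTop N0] with N hN w hw
  have h1 := hδ2 (w, p N) ⟨hw, hp N⟩ (w, p₀) ⟨hw, hp0⟩ (by
    rw [Prod.dist_eq, dist_self]
    exact max_lt hδ (hN0 N hN))
  rwa [dist_eq_norm] at h1

/-- upper bound of `Re s(0, x + i y)` for small `y` -/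
lemma s_up {ρ τ κ c : ℝ} {s dl : ℂ → ℂ → ℂ} (hK : KD ρ τ κ c s dl) {ε : ℝ} (hε : 0 < ε) :
    ∀ᶠ N : ℕ in atTop, ∀ x y : ℝ, |x| ≤ ρ → |y| ≤ 1 / N →
      (s 0 (x + y * Complex.I)).re ≤ 2 * bet + ε := by
  have hρ := hK.hρ
  have hτ := hK.hτ
  have hev : ∀ᶠ N : ℕ in atTop, (1 : ℝ) / N < τ := by
    have : Tendsto (fun N : ℕ => (1 : ℝ) / (N : ℝ)) atTop (𝓝 0) :=
      tendsto_const_div_atTop_nhds_zero_nat _
    exact this.eventually_lt_const hτ.1
  filter_upwards [hK.mw (ε / 2) (by positivity), hK.glob (ε / 2) (by positivity), hev,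
    eventually_gt_atTop 0] with N h1 h2 h3 h4 x y hx hy
  have hN' : (0 : ℝ) < N := by exact_mod_cast h4
  have hπ := Real.pi_gt_three
  have m0 : (0 : ℂ) ∈ Rc (3 * ρ) (3 * τ) := by
    refine ⟨?_, ?_⟩
    · rw [Complex.zero_re, abs_zero]; linarith
    · rw [Complex.zero_im, abs_zero]; linarith
  have m1 : ((x : ℂ) + y * Complex.I) ∈ Rc (3 * ρ) (3 * τ) := by
    refine ⟨?_, ?_⟩
    · rw [xy_re]; linarith
    · rw [xy_im]; linarith
  obtain ⟨k1, k2⟩ := h1 0 m0 _ m1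
  have k3 := h2 0 0 x y (by rw [abs_zero]; linarith) (by linarith) (by rw [abs_zero]; positivity) hy
  have e0 : ((0 : ℝ) : ℂ) + ((0 : ℝ) : ℂ) * Complex.I = 0 := by simp
  rw [e0, ← Real.log_le_iff_le_exp (norm_pos_iff.2 k1)] at k3
  have k4 := (abs_le.1 k2).1
  have k5 : N * (s 0 (x + y * Complex.I)).re ≤ N * (2 * bet + ε) := by linarith
  exact le_of_mul_le_mul_left k5 hN'

/-- the hypotheses in the form used -/
lemma sum_bd {A B C V κ : ℝ} {N : ℕ} (hC : 0 ≤ C) (hA : A ≤ V - κ) (hB : B ≤ V - κ)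
    (hN : 2 * C ≤ Real.exp (κ * N)) :
    C * Real.exp (N * A) + C * Real.exp (N * B) ≤ Real.exp (N * V) := by
  have hN0 : (0 : ℝ) ≤ N := Nat.cast_nonneg N
  have h1 : Real.exp (N * A) ≤ Real.exp (N * (V - κ)) :=
    Real.exp_le_exp.2 (mul_le_mul_of_nonneg_left hA hN0)
  have h2 : Real.exp (N * B) ≤ Real.exp (N * (V - κ)) :=
    Real.exp_le_exp.2 (mul_le_mul_of_nonneg_left hB hN0)
  have h3 : Real.exp (N * V) = Real.exp (κ * N) * Real.exp (N * (V - κ)) := by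
    rw [← Real.exp_add]; congr 1; ring
  have h4 := mul_le_mul_of_nonneg_left h1 hC
  have h5 := mul_le_mul_of_nonneg_left h2 hC
  have h6 : 2 * C * Real.exp (N * (V - κ)) ≤ Real.exp (κ * N) * Real.exp (N * (V - κ)) :=
    mul_le_mul_of_nonneg_right hN (Real.exp_pos _).le
  rw [h3]
  linarith

lemma ev_exp {κ : ℝ} (hκ : 0 < κ) (C : ℝ) : ∀ᶠ N : ℕ in atTop, C ≤ Real.exp (κ * N) := by
  have h1 : Tendsto (fun N : ℕ => Real.exp (κ * (N : ℝ))) atTop atTop :=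
    Real.tendsto_exp_atTop.comp (Tendsto.const_mul_atTop hκ tendsto_natCast_atTop_atTop)
  exact h1.eventually_ge_atTop C

end Pool.Agent.W85.HT
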